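import Pool.Agent.Helper43.Drop.Line
import Pool.Agent.Helper37.Drop.Fc
import Pool.Agent.Helper48.Drop.Rot
import Pool.Agent.Helper67.Drop.Box
import Pool.Agent.Helper71.Drop.Sup
import Pool.Agent.Helper33.Drop.Evl

/-!
# Evaluation of the main cube (piece EV2 of MP_51c806_gt)
-/

set_option autoImplicit false

namespace Pool.Agent.Helper50.Drop

open Finset MeasureTheory
open scoped RealInnerProductSpace
open Pool.Agent.Helper76.Freq (Q ins tr gr ev cobd cup Pr Adm gp Dep Nrm R3 E6 ver pt qf IsTop IsBot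
  H4 exists_isTop exists_isBot)

namespace EvBox

/-- the four-dimensional cube -/
abbrev K4 : Type := Fin 4 → unitInterval

/-- restriction to the first four coordinates -/
def rs (x : Q) : K4 := fun i => x i

/-- the adjoint of a cube of loops, time is the coordinate `0` -/
noncomputable def FF (c : Cube (LoopSpace 4) 3) (s : K4) : E 4 :=
  curve (c fun i => s i.succ).1 (s 0)

theorem continuous_FF {c : Cube (LoopSpace 4) 3} (hc : Continuous c) : Continuous (FF c) := by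
  have h1 : Continuous fun s : K4 => (c (fun i => s i.succ), s 0) :=
    (hc.comp (continuous_pi fun i => continuous_apply i.succ)).prodMk (continuous_apply 0)
  exact continuous_curve.comp h1

theorem norm_FF (c : Cube (LoopSpace 4) 3) (s : K4) : ‖FF c s‖ = 1 :=
  (c fun i => s i.succ).2.1 _ (s 0).2

/-- grids with `a` steps in the direction `0` and `M` steps in the other directions -/
def MsN (a M : ℕ) : ℕ → ℕ
  | 0 => a
  | _ + 1 => M

theorem le_MsN {K a M : ℕ} (ha : K ≤ a) (hM : K ≤ M) : ∀ l, K ≤ MsN a M l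
  | 0 => ha
  | _ + 1 => hM

theorem evc_eq (M N : ℕ) (φ : (ℕ → E 4) → ℤ) (c : Cube (LoopSpace 4) 3) :
    evc M 3 (Phi 3 N φ) (Finsupp.single c 1) =
      ∑ k ∈ range N, ev 3 (fun _ => M) (Pr 4 φ) (fun x : Q =>
        (FF c (rs (ins 0 (gr N k) x)), FF c (rs (ins 0 (gr N (k + 1)) x)))) := by
  unfold evc
  rw [Finsupp.linearCombination_single, one_smul]
  have h1 : Phi 3 N φ = fun γ => ∑ k ∈ range N, (fun (k : ℕ) (γ : ℕ → LoopSpace 4) =>
      Pr 4 φ fun i => (pnt N k (γ i), pnt N (k + 1) (γ i))) k γ := rfl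
  rw [h1, Pool.Agent.Helper76.Freq.ev_sum]
  refine sum_congr rfl fun k _ => ?_
  rw [Pool.Agent.Helper76.Freq.ev_pull (fun γ : LoopSpace 4 => (pnt N k γ, pnt N (k + 1) γ))
    (Pr 4 φ)]
  congr 1

/-- the terms of the evaluation in dimension `4` -/
theorem term_zero {Y : Type} {Ms : ℕ → ℕ} {φ : (ℕ → Y) → ℤ} {G : Q → Y} {j₀ : ℕ} (hj : j₀ < Ms 0)
    (h : ∀ k pos, Adm 4 Ms k pos → k 0 = j₀ → φ (fun j => G (gp 4 Ms k pos j)) = 0) :
    ev 3 (fun i => Ms (i + 1)) (Pr 4 φ) (fun x => (G (ins 0 (gr (Ms 0) j₀) x),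
      G (ins 0 (gr (Ms 0) (j₀ + 1)) x))) = 0 := by
  refine Pool.Agent.Helper76.Freq.ev_eq_zero fun k pos hadm => ?_
  simp only [Pr]
  refine sum_eq_zero fun i hi => ?_
  have h1 := Pool.Agent.Helper76.Freq.mix_gp 3 Ms k pos i j₀ G
  rw [h1, h _ _ (hadm.cons (mem_range.1 hi) hj) rfl, mul_zero]

theorem coe_gp {Ms k pos : ℕ → ℕ} (h : Adm 4 Ms k pos) (j : ℕ) {l : ℕ} (hl : l < 4) :
    ((gp 4 Ms k pos j l : unitInterval) : ℝ) =
      ((k l : ℝ) + if pos l < j then 1 else 0) / Ms l := by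
  unfold gp
  rw [if_pos hl, Pool.Agent.Helper76.Freq.coe_gr]
  · split_ifs <;> simp
  · have := h.cell l hl
    split_ifs <;> omega

theorem dist_gp {η : ℝ} (hη : 0 < η) : ∃ K : ℕ, 0 < K ∧ ∀ Ms k pos : ℕ → ℕ, (∀ l, K ≤ Ms l) →
    Adm 4 Ms k pos → ∀ i j, dist (rs (gp 4 Ms k pos i)) (rs (gp 4 Ms k pos j)) < η := by
  obtain ⟨K, hK⟩ := exists_nat_gt (1 / η)
  have hK0 : (0 : ℝ) < K := lt_trans (by positivity) hK
  refine ⟨K, by exact_mod_cast hK0, fun Ms k pos hMs hadm i j => ?_⟩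
  rw [dist_pi_lt_iff hη]
  intro l
  have hM : (K : ℝ) ≤ Ms l := by exact_mod_cast hMs l
  have hM0 : (0 : ℝ) < Ms l := lt_of_lt_of_le hK0 hM
  have h1 : (1 : ℝ) / Ms l < η := by
    rw [div_lt_iff₀ hM0]
    have : 1 < K * η := by
      rw [div_lt_iff₀ hη] at hK
      exact hK
    nlinarith
  have h2 : dist (rs (gp 4 Ms k pos i) l) (rs (gp 4 Ms k pos j) l) ≤ 1 / Ms l := by
    rw [Subtype.dist_eq, Real.dist_eq]
    change |((gp 4 Ms k pos i l : unitInterval) : ℝ) - ((gp 4 Ms k pos j l : unitInterval) : ℝ)| ≤ _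
    rw [coe_gp hadm i l.2, coe_gp hadm j l.2, ← sub_div, abs_div, abs_of_pos hM0]
    refine div_le_div_of_nonneg_right ?_ hM0.le
    split_ifs <;> simp
  exact lt_of_le_of_lt h2 h1

theorem pos_bound {f : K4 → ℝ} (hf : Continuous f) {S : Set K4} (hS : IsClosed S)
    (h : ∀ s ∈ S, 0 < f s) : ∃ ρ : ℝ, 0 < ρ ∧ ∀ s ∈ S, ρ ≤ f s := by
  rcases S.eq_empty_or_nonempty with h0 | h0
  · exact ⟨1, one_pos, by simp [h0]⟩
  · obtain ⟨s0, hs0, hmin⟩ := hS.isCompact.exists_isMinOn h0 hf.continuousOn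
    exact ⟨f s0, h s0 hs0, fun s hs => hmin hs⟩

/-- small simplices of the grid -/
theorem small_grid {V : Type*} [PseudoMetricSpace V] {F : K4 → V} (hF : Continuous F) {δ : ℝ}
    (hδ : 0 < δ) : ∃ K : ℕ, 0 < K ∧ ∀ Ms k pos : ℕ → ℕ, (∀ l, K ≤ Ms l) →
    Adm 4 Ms k pos → ∀ i j, dist (F (rs (gp 4 Ms k pos i))) (F (rs (gp 4 Ms k pos j))) < δ := by
  obtain ⟨η, hη, h⟩ := Metric.uniformContinuous_iff.1
    (CompactSpace.uniformContinuous_of_continuous hF) δ hδ
  obtain ⟨K, hK, h1⟩ := dist_gp hη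
  exact ⟨K, hK, fun Ms k pos hMs hadm i j => h (h1 Ms k pos hMs hadm i j)⟩

theorem continuous_VB : Continuous fun p : ℝ × ℝ => VB p.1 p.2 := by
  unfold VB
  refine (PiLp.continuous_toLp 2 _).comp (continuous_pi fun i => ?_)
  fin_cases i <;> simp <;> fun_prop

theorem continuous_crs : Continuous fun p : R3 × R3 => crs p.1 p.2 := by
  unfold crs
  refine (PiLp.continuous_toLp 2 _).comp (continuous_pi fun i => ?_)
  fin_cases i <;> simp <;> fun_prop

theorem continuous_ver5 : Continuous ver5 := by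
  unfold ver5
  refine (PiLp.continuous_toLp 2 _).comp (continuous_pi fun i => ?_)
  fin_cases i <;> simp [Pool.Agent.Helper76.Freq.ver] <;> fun_prop

theorem continuous_Rot : Continuous fun p : R3 × ℝ × R3 => Rot p.1 p.2.1 p.2.2 := by
  unfold Rot
  have h := continuous_crs.comp (f := fun p : R3 × ℝ × R3 => (p.1, p.2.2)) (by fun_prop)
  simp only [Function.comp_def] at h
  fun_prop

theorem VB_pos {x y : ℝ} (hx : x ∈ Set.Icc (0 : ℝ) 1) (hy : y ∈ Set.Icc (0 : ℝ) 1) (i : Fin 3) :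
    0 < VB x y i := by
  have h1 := hx.1
  have h2 := hx.2
  have h3 := hy.1
  have h4 := hy.2
  unfold VB
  fin_cases i <;> simp <;> linarith

theorem VB_ne {x y : ℝ} (hx : x ∈ Set.Icc (0 : ℝ) 1) (hy : y ∈ Set.Icc (0 : ℝ) 1) : VB x y ≠ 0 := by
  intro h
  have := VB_pos hx hy 0
  rw [h] at this
  simp at this

theorem norm_vB {x y : ℝ} (hx : x ∈ Set.Icc (0 : ℝ) 1) (hy : y ∈ Set.Icc (0 : ℝ) 1) :
    ‖vB x y‖ = 1 := by
  unfold vB
  rw [norm_smul, norm_inv, norm_norm]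
  exact inv_mul_cancel₀ (norm_ne_zero_iff.2 (VB_ne hx hy))

theorem vB_nonneg {x y : ℝ} (hx : x ∈ Set.Icc (0 : ℝ) 1) (hy : y ∈ Set.Icc (0 : ℝ) 1) (i : Fin 3) :
    0 ≤ vB x y i := by
  unfold vB
  rw [PiLp.smul_apply, smul_eq_mul]
  exact mul_nonneg (by positivity) (VB_pos hx hy i).le

theorem vB_eq_v0 {x y : ℝ} (hx : x ∈ Set.Icc (0 : ℝ) 1) (hy : y ∈ Set.Icc (0 : ℝ) 1)
    (h : vB x y = v0) : x = 1 / 2 ∧ y = 1 / 2 := by
  have h0 : ∀ i, vB x y i = ‖VB x y‖⁻¹ * VB x y i := fun i => by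
    unfold vB
    rw [PiLp.smul_apply, smul_eq_mul]
  have h1 : ∀ i, v0 i = (√3)⁻¹ := by
    intro i
    unfold v0
    rw [PiLp.smul_apply, smul_eq_mul]
    fin_cases i <;> simp
  have hn : ‖VB x y‖⁻¹ ≠ 0 := inv_ne_zero (norm_ne_zero_iff.2 (VB_ne hx hy))
  have e01 : VB x y 0 = VB x y 1 := by
    have : ‖VB x y‖⁻¹ * VB x y 0 = ‖VB x y‖⁻¹ * VB x y 1 := by
      rw [← h0, ← h0, h, h1, h1]
    exact mul_left_cancel₀ hn this
  have e12 : VB x y 1 = VB x y 2 := by
    have : ‖VB x y‖⁻¹ * VB x y 1 = ‖VB x y‖⁻¹ * VB x y 2 := by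
      rw [← h0, ← h0, h, h1, h1]
    exact mul_left_cancel₀ hn this
  unfold VB at e01 e12
  simp at e01 e12
  constructor <;> linarith

theorem vB_half : vB (1 / 2) (1 / 2) = v0 := by
  have h : VB (1 / 2) (1 / 2) = !₂[1, 1, 1] := by
    unfold VB; norm_num
  have hn : ‖(!₂[1, 1, 1] : R3)‖ = √3 := by
    rw [EuclideanSpace.norm_eq, Fin.sum_univ_three]
    simp [Matrix.cons_val]
    norm_num
  unfold vB v0
  rw [h, hn]

section pts

variable (y : K4)

/-- the level -/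
noncomputable def sgm : ℝ := (y 3 : ℝ) - 1 / 2
/-- the time -/
noncomputable def tt : ℝ := 15 / 32 + (y 0 : ℝ) / 16
/-- the axis -/
noncomputable def vv : R3 := vB (y 1) (y 2)
/-- the top vector -/
noncomputable def ra : R3 := Rot (vv y) (2 * Real.pi * tt y) e1
/-- the bottom vector -/
noncomputable def rb : R3 := Rot (vv y) (2 * Real.pi * tt y) e3
/-- the main cube in the window -/
noncomputable def GG : E 4 := lp (vv y) e1 e3 (sgm y) (tt y)

theorem continuous_vv : Continuous vv := by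
  unfold vv vB
  have h := continuous_VB.comp (f := fun y : K4 => ((y 1 : ℝ), (y 2 : ℝ))) (by fun_prop)
  simp only [Function.comp_def] at h
  exact (h.norm.inv₀ fun y => norm_ne_zero_iff.2 (VB_ne (y 1).2 (y 2).2)).smul h

theorem continuous_tt : Continuous tt := by
  unfold tt
  fun_prop

theorem continuous_sgm : Continuous sgm := by
  unfold sgm
  fun_prop

theorem continuous_ra : Continuous ra := by
  have h := continuous_Rot.comp (f := fun y : K4 => (vv y, 2 * Real.pi * tt y, e1))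
    (continuous_vv.prodMk ((continuous_const.mul continuous_tt).prodMk continuous_const))
  exact h

theorem continuous_rb : Continuous rb := by
  have h := continuous_Rot.comp (f := fun y : K4 => (vv y, 2 * Real.pi * tt y, e3))
    (continuous_vv.prodMk ((continuous_const.mul continuous_tt).prodMk continuous_const))
  exact h

theorem continuous_GG : Continuous GG := by
  have h1 : GG = fun y => ((1 + sgm y) / √(3 + sgm y ^ 2)) • ver5 (ra y) -
      ((1 - sgm y) / √(3 + sgm y ^ 2)) • ver5 (rb y) := rfl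
  rw [h1]
  have h2 := continuous_sgm
  have h3 : ∀ y : K4, √(3 + sgm y ^ 2) ≠ 0 := fun y => by positivity
  have h4 : Continuous fun y => √(3 + sgm y ^ 2) := by fun_prop
  exact (((continuous_const.add h2).div h4 h3).smul (continuous_ver5.comp continuous_ra)).sub
    (((continuous_const.sub h2).div h4 h3).smul (continuous_ver5.comp continuous_rb))

theorem norm_e1 : ‖e1‖ = 1 := by
  rw [EuclideanSpace.norm_eq, Fin.sum_univ_three]
  unfold e1
  simp [Matrix.cons_val]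

theorem norm_e3 : ‖e3‖ = 1 := by
  rw [EuclideanSpace.norm_eq, Fin.sum_univ_three]
  unfold e3
  simp [Matrix.cons_val]

theorem inner_e13 : ⟪e1, e3⟫ = 0 := by
  rw [Pool.Agent.Helper76.Freq.inner3]
  unfold e1 e3
  simp [Matrix.cons_val]

theorem norm_vv : ‖vv y‖ = 1 := norm_vB (y 1).2 (y 2).2

theorem norm_ra : ‖ra y‖ = 1 := by rw [ra, Rot_norm (norm_vv y), norm_e1]

theorem norm_rb : ‖rb y‖ = 1 := by rw [rb, Rot_norm (norm_vv y), norm_e3]

theorem inner_rab : ⟪ra y, rb y⟫ = 0 := by rw [ra, rb, Rot_inner (norm_vv y), inner_e13]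

theorem norm_GG : ‖GG y‖ = 1 := norm_lp (norm_vv y) norm_e1 norm_e3 (Or.inl inner_e13) _

theorem sgm_abs : |sgm y| ≤ 1 / 2 := by
  have h1 := (y 3).2.1
  have h2 := (y 3).2.2
  unfold sgm
  rw [abs_le]
  constructor <;> linarith

theorem Hf_GG_pos : 0 < Hf (GG y) ↔ 0 < sgm y := by
  rw [GG, Hf_lp (norm_vv y) norm_e1 norm_e3 (Or.inl inner_e13)]
  have h1 : 0 < √(3 + sgm y ^ 2) ^ 3 := by positivity
  rw [div_pos_iff_of_pos_right h1]
  have h2 := abs_le.1 (sgm_abs y)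
  have h3 : 0 < 9 - sgm y ^ 2 := by nlinarith [h2.1, h2.2]
  have h4 : 9 * sgm y - sgm y ^ 3 = sgm y * (9 - sgm y ^ 2) := by ring
  rw [h4, mul_pos_iff_of_pos_right h3]

theorem top_GG {z : R3} (h : IsTop (emb (GG y)) z) : z = ra y ∨ z = - ra y := by
  rw [GG, emb_lp] at h
  have h2 := abs_le.1 (sgm_abs y)
  have h3 : 0 < √(3 + sgm y ^ 2) := by positivity
  exact Pool.Agent.Helper76.Freq.eq_of_isTop_pt (div_pos (by linarith [h2.1]) h3)
    (div_nonneg (by linarith [h2.2]) h3.le) (norm_ra y) (norm_rb y) (inner_rab y) h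

theorem bot_GG {z : R3} (h : IsBot (emb (GG y)) z) : z = rb y ∨ z = - rb y := by
  rw [GG, emb_lp] at h
  have h2 := abs_le.1 (sgm_abs y)
  have h3 : 0 < √(3 + sgm y ^ 2) := by positivity
  exact Pool.Agent.Helper76.Freq.eq_of_isBot_pt (div_nonneg (by linarith [h2.1]) h3.le)
    (div_pos (by linarith [h2.2]) h3) (norm_ra y) (norm_rb y) (inner_rab y) h

end pts

/-- a unit vector `r` and `z = ± r` with `0 ≤ ⟪z, u⟫` -/
theorem sign_pos {r z u : R3} (hr : ‖r‖ = 1) (h : z = r ∨ z = -r) (hz : 0 ≤ ⟪z, u⟫)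
    (hu : 0 < ⟪r, u⟫) : 0 < ⟪z, r⟫ := by
  rcases h with h | h
  · rw [h, real_inner_self_eq_norm_sq, hr]; norm_num
  · rw [h, inner_neg_left] at hz
    linarith

theorem sign_neg {r z u : R3} (hr : ‖r‖ = 1) (h : z = r ∨ z = -r) (hz : 0 ≤ ⟪z, u⟫)
    (hu : ⟪r, u⟫ < 0) : ¬ 0 < ⟪z, r⟫ := by
  rcases h with h | h
  · rw [h] at hz
    linarith
  · rw [h, inner_neg_left, real_inner_self_eq_norm_sq, hr]; norm_num

theorem sign_iff {r z b : R3} (hr : ‖r‖ = 1) (h : z = r ∨ z = -r) (hb : 0 < ⟪r, b⟫) :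
    0 < ⟪z, b⟫ ↔ 0 < ⟪z, r⟫ := by
  rcases h with h | h
  · rw [h, real_inner_self_eq_norm_sq, hr]
    norm_num
    exact hb
  · rw [h, inner_neg_left, inner_neg_left, real_inner_self_eq_norm_sq, hr]
    norm_num
    exact hb.le

theorem uC_val (r : R3) : ⟪r, uC⟫ = r 0 - r 1 := by
  rw [Pool.Agent.Helper76.Freq.inner3]
  unfold uC
  simp [Matrix.cons_val]
  ring

theorem uB_val (r : R3) : ⟪r, uB⟫ = r 0 + r 1 + 4 * r 2 := by
  rw [Pool.Agent.Helper76.Freq.inner3]
  unfold uB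
  simp [Matrix.cons_val]
  ring

theorem uA_val (r : R3) : ⟪r, uA⟫ = 4 * r 0 + r 1 + r 2 := by
  rw [Pool.Agent.Helper76.Freq.inner3]
  unfold uA
  simp [Matrix.cons_val]
  ring

theorem eq_b0 {r : R3} (hr : ‖r‖ = 1) (h1 : ⟪r, uC⟫ = 0) (h2 : ⟪r, uB⟫ = 0) :
    r = b0 ∨ r = -b0 := by
  rw [uC_val] at h1
  rw [uB_val] at h2
  have h3 := Pool.Agent.Helper76.Freq.norm3 r
  rw [hr] at h3
  have e1 : r 1 = r 0 := by linarith
  have e2 : r 2 = - r 0 / 2 := by linarith
  have h4 : (r 0 - 2 / 3) * (r 0 + 2 / 3) = 0 := by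
    rw [e1, e2] at h3
    nlinarith
  rcases mul_eq_zero.1 h4 with h | h
  · left
    have e0 : r 0 = 2 / 3 := by linarith
    ext i
    unfold b0
    fin_cases i
    · simp [e0]
    · simp [e1, e0]
    · simp [e2, e0, Matrix.cons_val]
      norm_num
  · right
    have e0 : r 0 = -2 / 3 := by linarith
    ext i
    unfold b0
    fin_cases i
    · simp [e0]
      norm_num
    · simp [e1, e0]
      norm_num
    · simp [e2, e0, Matrix.cons_val]
      norm_num

theorem eq_a0 {r b : R3} (hr : ‖r‖ = 1) (h1 : ⟪r, b⟫ = 0) (hb : b = b0 ∨ b = -b0)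
    (h2 : ⟪r, uA⟫ = 0) : r = a0 ∨ r = -a0 := by
  rw [uA_val] at h2
  have h1' : ⟪r, b0⟫ = 0 := by
    rcases hb with h | h
    · rw [← h]; exact h1
    · rw [h, inner_neg_right] at h1
      linarith
  have h5 : 2 * r 0 + 2 * r 1 - r 2 = 0 := by
    rw [Pool.Agent.Helper76.Freq.inner3] at h1'
    unfold b0 at h1'
    simp [Matrix.cons_val] at h1'
    linarith
  have h3 := Pool.Agent.Helper76.Freq.norm3 r
  rw [hr] at h3
  have e1 : r 1 = -2 * r 0 := by linarith
  have e2 : r 2 = -2 * r 0 := by linarith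
  have h4 : (r 0 - 1 / 3) * (r 0 + 1 / 3) = 0 := by
    rw [e1, e2] at h3
    nlinarith
  rcases mul_eq_zero.1 h4 with h | h
  · right
    have e0 : r 0 = 1 / 3 := by linarith
    ext i
    unfold a0
    fin_cases i
    · simp [e0]
      norm_num
    · simp [e1, e0]
      norm_num
    · simp [e2, e0, Matrix.cons_val]
      norm_num
  · left
    have e0 : r 0 = -1 / 3 := by linarith
    ext i
    unfold a0
    fin_cases i
    · simp [e0]
    · simp [e1, e0]
      norm_num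
    · simp [e2, e0, Matrix.cons_val]
      norm_num

theorem GG_eq_qpi {y : K4} (h0 : sgm y = 0) (hC : ⟪rb y, uC⟫ = 0) (hB : ⟪rb y, uB⟫ = 0)
    (hA : ⟪ra y, uA⟫ = 0) : GG y = qpi := by
  have hb := eq_b0 (norm_rb y) hC hB
  have ha := eq_a0 (norm_ra y) (inner_rab y) hb hA
  have hb' : ver5 (rb y) = ver5 b0 := by
    rcases hb with h | h
    · rw [h]
    · rw [h, ver5_neg]
  have ha' : ver5 (ra y) = ver5 a0 := by
    rcases ha with h | h
    · rw [h]
    · rw [h, ver5_neg]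
  have h1 : GG y = ((1 + sgm y) / √(3 + sgm y ^ 2)) • ver5 (ra y) -
      ((1 - sgm y) / √(3 + sgm y ^ 2)) • ver5 (rb y) := rfl
  rw [h1, ha', hb', h0, qpi, smul_sub]
  norm_num

theorem Rot_v0_e1 : Rot v0 Real.pi e1 = a0 := by
  have h1 : ⟪v0, e1⟫ = (√3)⁻¹ := by
    rw [Pool.Agent.Helper76.Freq.inner3]
    unfold v0 e1
    simp [Matrix.cons_val]
  have h2 : (√3 : ℝ)⁻¹ * (√3)⁻¹ = 1 / 3 := by
    rw [← mul_inv, Real.mul_self_sqrt (by norm_num)]
    norm_num
  unfold Rot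
  rw [Real.cos_pi, Real.sin_pi, h1, zero_smul, add_zero, v0, smul_smul]
  have h3 : (1 - -1) * (√3 : ℝ)⁻¹ * (√3)⁻¹ = 2 / 3 := by linear_combination 2 * h2
  rw [h3]
  unfold e1 a0
  ext i
  fin_cases i <;> (simp [Matrix.cons_val]; try norm_num)

theorem Rot_v0_e3 : Rot v0 Real.pi e3 = b0 := by
  have h1 : ⟪v0, e3⟫ = (√3)⁻¹ := by
    rw [Pool.Agent.Helper76.Freq.inner3]
    unfold v0 e3
    simp [Matrix.cons_val]
  have h2 : (√3 : ℝ)⁻¹ * (√3)⁻¹ = 1 / 3 := by
    rw [← mul_inv, Real.mul_self_sqrt (by norm_num)]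
    norm_num
  unfold Rot
  rw [Real.cos_pi, Real.sin_pi, h1, zero_smul, add_zero, v0, smul_smul]
  have h3 : (1 - -1) * (√3 : ℝ)⁻¹ * (√3)⁻¹ = 2 / 3 := by linear_combination 2 * h2
  rw [h3]
  unfold e3 b0
  ext i
  fin_cases i <;> (simp [Matrix.cons_val]; try norm_num)

theorem norm_a0 : ‖a0‖ = 1 := by rw [← Rot_v0_e1, Rot_norm norm_v0, norm_e1]

theorem norm_b0 : ‖b0‖ = 1 := by rw [← Rot_v0_e3, Rot_norm norm_v0, norm_e3]

theorem centre {y : K4} (h : GG y = qpi) : 0 < ⟪ra y, a0⟫ ∧ 0 < ⟪rb y, b0⟫ := by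
  rw [qpi_eq] at h
  have hs := sgm_abs y
  have ht : tt y ∈ Set.Icc (0 : ℝ) 1 := by
    have h1 := (y 0).2.1
    have h2 := (y 0).2.2
    unfold tt
    constructor <;> linarith
  obtain ⟨h1, h2, h3⟩ := hit1 (norm_vv y) (fun i => vB_nonneg (y 1).2 (y 2).2 i) (by linarith) ht
    Real.pi_pos (by linarith [Real.pi_pos]) h
  have h4 : 2 * Real.pi * tt y = Real.pi := by
    rw [h3]
    field_simp
  unfold ra rb
  rw [h2, h4, Rot_v0_e1, Rot_v0_e3, real_inner_self_eq_norm_sq, real_inner_self_eq_norm_sq,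
    norm_a0, norm_b0]
  norm_num

/-- a neighbourhood of the centre of the box -/
def UU : Set K4 := {y | ‖GG y - qpi‖ < 1 / 140 ∧ 0 < ⟪ra y, a0⟫ ∧ 0 < ⟪rb y, b0⟫}

theorem isOpen_UU : IsOpen UU := by
  refine (isOpen_lt ((continuous_GG.sub continuous_const).norm) continuous_const).and
    ((isOpen_lt continuous_const (continuous_ra.inner continuous_const)).and
      (isOpen_lt continuous_const (continuous_rb.inner continuous_const)))

/-- the four functions with prescribed boundary values -/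
noncomputable def hX1 (y : K4) : ℤ := if 0 < sgm y then 1 else 0
noncomputable def hC1 (y : K4) : ℤ := if 0 < ⟪botv uC (GG y), rb y⟫ then 1 else 0
noncomputable def hB1 (y : K4) : ℤ := if 0 < ⟪botv uB (GG y), rb y⟫ then 1 else 0
noncomputable def hA1 (y : K4) : ℤ := if 0 < ⟪topv uA (GG y), ra y⟫ then 1 else 0

theorem hX_eq {y : K4} : hX (GG y) = hX1 y := by
  unfold hX hX1
  simp only [Hf_GG_pos]

theorem hC_eq {y : K4} (hy : y ∈ UU) : hC (GG y) = hC1 y := by
  unfold hC hC1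
  simp only [sign_iff (norm_rb y) (bot_GG y (botv_isBot uC (GG y)).1) hy.2.2]

theorem hB_eq {y : K4} (hy : y ∈ UU) : hB (GG y) = hB1 y := by
  unfold hB hB1
  simp only [sign_iff (norm_rb y) (bot_GG y (botv_isBot uB (GG y)).1) hy.2.2]

theorem hA_eq {y : K4} (hy : y ∈ UU) : hA (GG y) = hA1 y := by
  unfold hA hA1
  simp only [sign_iff (norm_ra y) (top_GG y (topv_isTop uA (GG y)).1) hy.2.1]

theorem omZ_eq {q : ℕ → K4} (hq : ∀ i < 5, q i ∈ UU) :
    omZ (fun j => GG (q j)) = prod4 hX1 hC1 hB1 hA1 q := by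
  unfold omZ
  rw [if_pos fun i hi => (hq i hi).1]
  unfold prod4
  rw [hX_eq, hX_eq, hC_eq (hq 2 (by omega)), hC_eq (hq 1 (by omega)), hB_eq (hq 3 (by omega)),
    hB_eq (hq 2 (by omega)), hA_eq (hq 4 (by omega)), hA_eq (hq 3 (by omega))]

/-- values of the indicators -/
theorem hX1_val (y : K4) : (0 < sgm y → hX1 y = 1) ∧ (sgm y < 0 → hX1 y = 0) :=
  ⟨fun h => if_pos h, fun h => if_neg (not_lt.2 h.le)⟩

theorem hC1_val (y : K4) : (0 < ⟪rb y, uC⟫ → hC1 y = 1) ∧ (⟪rb y, uC⟫ < 0 → hC1 y = 0) := by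
  have h := botv_isBot uC (GG y)
  exact ⟨fun h1 => if_pos (sign_pos (norm_rb y) (bot_GG y h.1) h.2 h1),
    fun h1 => if_neg (sign_neg (norm_rb y) (bot_GG y h.1) h.2 h1)⟩

theorem hB1_val (y : K4) : (0 < ⟪rb y, uB⟫ → hB1 y = 1) ∧ (⟪rb y, uB⟫ < 0 → hB1 y = 0) := by
  have h := botv_isBot uB (GG y)
  exact ⟨fun h1 => if_pos (sign_pos (norm_rb y) (bot_GG y h.1) h.2 h1),
    fun h1 => if_neg (sign_neg (norm_rb y) (bot_GG y h.1) h.2 h1)⟩

theorem hA1_val (y : K4) : (0 < ⟪ra y, uA⟫ → hA1 y = 1) ∧ (⟪ra y, uA⟫ < 0 → hA1 y = 0) := by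
  have h := topv_isTop uA (GG y)
  exact ⟨fun h1 => if_pos (sign_pos (norm_ra y) (top_GG y h.1) h.2 h1),
    fun h1 => if_neg (sign_neg (norm_ra y) (top_GG y h.1) h.2 h1)⟩

theorem jump {g : K4 → ℝ} {k : K4 → ℤ} (hk : ∀ y, (0 < g y → k y = 1) ∧ (g y < 0 → k y = 0))
    {p q : K4} (h : k p - k q ≠ 0) : |g p| ≤ |g p - g q| := by
  by_contra hc
  push Not at hc
  apply h
  rcases lt_trichotomy (g p) 0 with h1 | h1 | h1
  · rw [abs_of_neg h1] at hc
    have h2 := (abs_lt.1 hc).1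
    rw [(hk p).2 h1, (hk q).2 (by linarith), sub_self]
  · rw [h1, abs_zero] at hc
    exact absurd hc (not_lt.2 (abs_nonneg _))
  · rw [abs_of_pos h1] at hc
    have h2 := (abs_lt.1 hc).2
    rw [(hk p).1 h1, (hk q).1 (by linarith), sub_self]

/-- all continuous data -/
noncomputable def dat (y : K4) : ℝ × ℝ × ℝ × ℝ × E 4 :=
  (sgm y, ⟪rb y, uC⟫, ⟪rb y, uB⟫, ⟪ra y, uA⟫, GG y)

theorem continuous_dat : Continuous dat :=
  continuous_sgm.prodMk ((continuous_rb.inner continuous_const).prodMk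
    ((continuous_rb.inner continuous_const).prodMk
      ((continuous_ra.inner continuous_const).prodMk continuous_GG)))

/-- comparison of the two cochains on small simplices -/
theorem compare_cochains : ∃ δ : ℝ, 0 < δ ∧ ∀ q : ℕ → K4,
    (∀ i < 5, ∀ j < 5, dist (dat (q i)) (dat (q j)) < δ) →
    omZ (fun j => GG (q j)) = prod4 hX1 hC1 hB1 hA1 q := by
  obtain ⟨ρ, hρ, h1⟩ := pos_bound (f := fun s => ‖GG s - qpi‖)
    ((continuous_GG.sub continuous_const).norm) (S := UUᶜ) isOpen_UU.isClosed_compl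
    (fun s hs => norm_pos_iff.2 (sub_ne_zero.2 fun h => hs ⟨by rw [h]; norm_num, centre h⟩))
  obtain ⟨δ, hδ, h2⟩ := omZ_support ρ hρ
  obtain ⟨r, hr, h3⟩ := pos_bound
    (f := fun s => |sgm s| + |⟪rb s, uC⟫| + |⟪rb s, uB⟫| + |⟪ra s, uA⟫|)
    (((continuous_sgm.abs.add (continuous_rb.inner continuous_const).abs).add
      (continuous_rb.inner continuous_const).abs).add (continuous_ra.inner continuous_const).abs)
    (S := UUᶜ) isOpen_UU.isClosed_compl
    (fun s hs => by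
      by_contra hc
      have a1 := abs_nonneg (sgm s)
      have a2 := abs_nonneg ⟪rb s, uC⟫
      have a3 := abs_nonneg ⟪rb s, uB⟫
      have a4 := abs_nonneg ⟪ra s, uA⟫
      have h := GG_eq_qpi (y := s) (abs_eq_zero.1 (by linarith)) (abs_eq_zero.1 (by linarith))
        (abs_eq_zero.1 (by linarith)) (abs_eq_zero.1 (by linarith))
      exact hs ⟨by rw [h]; norm_num, centre h⟩)
  refine ⟨min δ (r / 8), lt_min hδ (by linarith), fun q hq => ?_⟩
  have hq' : ∀ i < 5, ∀ j < 5, (|sgm (q i) - sgm (q j)| < r / 8) ∧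
      (|⟪rb (q i), uC⟫ - ⟪rb (q j), uC⟫| < r / 8) ∧ (|⟪rb (q i), uB⟫ - ⟪rb (q j), uB⟫| < r / 8) ∧
      (|⟪ra (q i), uA⟫ - ⟪ra (q j), uA⟫| < r / 8) ∧ ‖GG (q i) - GG (q j)‖ < δ := by
    intro i hi j hj
    have h4 := hq i hi j hj
    unfold dat at h4
    rw [Prod.dist_eq, Prod.dist_eq, Prod.dist_eq, Prod.dist_eq] at h4
    simp only [max_lt_iff, lt_min_iff] at h4
    obtain ⟨⟨-, -, -, -, b5⟩, ⟨b1, b2, b3, b4, -⟩⟩ := h4
    rw [Real.dist_eq] at b1 b2 b3 b4
    rw [dist_eq_norm] at b5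
    exact ⟨b1, b2, b3, b4, b5⟩
  by_cases hz : prod4 hX1 hC1 hB1 hA1 q = 0
  · rw [hz]
    by_contra h4
    have h5 := h2 (fun j => GG (q j)) (fun i _ => norm_GG _) (fun i hi j hj => (hq' i hi j hj).2.2.2.2)
      h4
    have h6 : ∀ i < 5, q i ∈ UU := by
      intro i hi
      by_contra h7
      exact absurd (h5 i hi) (not_lt.2 (h1 _ h7))
    rw [omZ_eq h6] at h4
    exact h4 hz
  · unfold prod4 at hz
    have z1 := left_ne_zero_of_mul hz
    have z2 := left_ne_zero_of_mul (right_ne_zero_of_mul hz)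
    have z3 := left_ne_zero_of_mul (right_ne_zero_of_mul (right_ne_zero_of_mul hz))
    have z4 := right_ne_zero_of_mul (right_ne_zero_of_mul (right_ne_zero_of_mul hz))
    have j1 := jump hX1_val z1
    have j2 := jump hC1_val z2
    have j3 := jump hB1_val z3
    have j4 := jump hA1_val z4
    have h6 : ∀ i < 5, q i ∈ UU := by
      intro i hi
      by_contra h7
      have h8 := h3 _ h7
      have c1 := (hq' 1 (by omega) 0 (by omega)).1
      have c2 := (hq' 2 (by omega) 1 (by omega)).2.1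
      have c3 := (hq' 3 (by omega) 2 (by omega)).2.2.1
      have c4 := (hq' 4 (by omega) 3 (by omega)).2.2.2.1
      have d1 := (hq' i hi 1 (by omega)).1
      have d2 := (hq' i hi 2 (by omega)).2.1
      have d3 := (hq' i hi 3 (by omega)).2.2.1
      have d4 := (hq' i hi 4 (by omega)).2.2.2.1
      have t1 := abs_sub_abs_le_abs_sub (sgm (q i)) (sgm (q 1))
      have t2 := abs_sub_abs_le_abs_sub ⟪rb (q i), uC⟫ ⟪rb (q 2), uC⟫
      have t3 := abs_sub_abs_le_abs_sub ⟪rb (q i), uB⟫ ⟪rb (q 3), uB⟫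
      have t4 := abs_sub_abs_le_abs_sub ⟪ra (q i), uA⟫ ⟪ra (q 4), uA⟫
      linarith
    exact omZ_eq h6

end EvBox

open EvBox

/-- cubes of loops avoiding the marked point do not contribute -/
theorem eval_avoid {c : Cube (LoopSpace 4) 3} (hc : Continuous c)
    (h : ∀ s (t : unitInterval), curve (c s).1 t ≠ qpi) :
    ∃ K, ∀ M ≥ K, ∀ N ≥ K, evc M 3 (Phi 3 N omZ) (Finsupp.single c 1) = 0 := by
  obtain ⟨ρ, hρ, h1⟩ := pos_bound (f := fun s => ‖FF c s - qpi‖)
    (((continuous_FF hc).sub continuous_const).norm) isClosed_univ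
    (fun s _ => norm_pos_iff.2 (sub_ne_zero.2 (h _ _)))
  obtain ⟨δ, hδ, h2⟩ := omZ_support ρ hρ
  obtain ⟨K, hK, h3⟩ := small_grid (continuous_FF hc) hδ
  refine ⟨K, fun M hM N hN => ?_⟩
  rw [evc_eq]
  refine sum_eq_zero fun j₀ hj₀ => ?_
  refine term_zero (Ms := MsN N M) (G := fun x => FF c (rs x)) (mem_range.1 hj₀)
    (fun k pos hadm _ => ?_)
  by_contra h4
  have h5 := h2 (fun j => FF c (rs (gp 4 (MsN N M) k pos j))) (fun i _ => norm_FF c _)
    (fun i _ j _ => by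
      rw [← dist_eq_norm]
      exact h3 _ _ _ (le_MsN hN hM) hadm i j) h4 0 (by omega)
  exact absurd h5 (not_lt.2 (h1 _ (Set.mem_univ _)))

/-- the point of the window with time coordinate `gr (32 N) (15 N + i)` -/
theorem FF_window {c : Cube (LoopSpace 4) 3}
    (h : ∀ (s : Fin 3 → unitInterval) (t : unitInterval),
      curve (c s).1 t = lp (vB (s 0) (s 1)) e1 e3 ((s 2 : ℝ) - 1 / 2) t) {N i : ℕ} (hN : 0 < N)
    (hi : i ≤ 2 * N) (x : Q) :
    FF c (rs (ins 0 (gr (32 * N) (15 * N + i)) x)) = GG (rs (ins 0 (gr (2 * N) i) x)) := by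
  have h1 : ∀ e : unitInterval, rs (ins 0 e x) 0 = e := fun e => by
    unfold rs ins
    simp
  have h2 : ∀ (e : unitInterval) (l : Fin 3), rs (ins 0 e x) l.succ = x l := fun e l => by
    unfold rs ins
    simp
  have h3 : ∀ e : unitInterval, rs (ins 0 e x) 1 = x 0 := fun e => h2 e 0
  have h4 : ∀ e : unitInterval, rs (ins 0 e x) 2 = x 1 := fun e => h2 e 1
  have h5 : ∀ e : unitInterval, rs (ins 0 e x) 3 = x 2 := fun e => h2 e 2
  unfold FF
  rw [h, h1]
  unfold GG vv sgm tt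
  rw [h1, h3, h4, h5]
  have h6 : ((gr (32 * N) (15 * N + i) : unitInterval) : ℝ) =
      15 / 32 + ((gr (2 * N) i : unitInterval) : ℝ) / 16 := by
    rw [Pool.Agent.Helper76.Freq.coe_gr (by omega), Pool.Agent.Helper76.Freq.coe_gr hi]
    have hN' : (N : ℝ) ≠ 0 := by positivity
    push_cast
    field_simp
    ring
  rw [h6]
  simp only [h2]
  rfl

/-- the main cube contributes `± 1` -/
theorem eval_box {c : Cube (LoopSpace 4) 3} (hc : Continuous c)
    (h : ∀ (s : Fin 3 → unitInterval) (t : unitInterval),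
      curve (c s).1 t = lp (vB (s 0) (s 1)) e1 e3 ((s 2 : ℝ) - 1 / 2) t) :
    ∃ K, ∀ M ≥ K, ∀ N ≥ K, evc M 3 (Phi 3 (32 * N) omZ) (Finsupp.single c 1) = 1 ∨
      evc M 3 (Phi 3 (32 * N) omZ) (Finsupp.single c 1) = -1 := by
  -- outside the window
  have hF := continuous_FF hc
  obtain ⟨ρ, hρ, h1⟩ := pos_bound (f := fun s => ‖FF c s - qpi‖)
    ((hF.sub continuous_const).norm)
    (S := {s : K4 | (s 0 : ℝ) ≤ 15 / 32} ∪ {s : K4 | 17 / 32 ≤ (s 0 : ℝ)})
    ((isClosed_le (by fun_prop) continuous_const).union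
      (isClosed_le continuous_const (by fun_prop)))
    (fun s hs => by
      rw [norm_pos_iff, sub_ne_zero]
      intro h2
      unfold FF at h2
      rw [h, qpi_eq] at h2
      have h3 : (0 : ℝ) ≤ s (Fin.succ 2) := (s (Fin.succ 2)).2.1
      have h4 : (s (Fin.succ 2) : ℝ) ≤ 1 := (s (Fin.succ 2)).2.2
      have h5 := hit1 (norm_vB (s 1).2 (s 2).2) (fun i => vB_nonneg (s 1).2 (s 2).2 i)
        (by rw [abs_le]; constructor <;> linarith) (s 0).2
        Real.pi_pos (by linarith [Real.pi_pos]) h2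
      have h6 : (s 0 : ℝ) = 1 / 2 := by
        rw [h5.2.2]
        field_simp
      rcases hs with hs | hs <;> rw [Set.mem_ofPred_eq, h6] at hs <;> norm_num at hs)
  obtain ⟨δ, hδ, h2⟩ := omZ_support ρ hρ
  obtain ⟨K, hK, h3⟩ := small_grid hF hδ
  obtain ⟨δ', hδ', h4⟩ := compare_cochains
  obtain ⟨K', hK', h5⟩ := small_grid continuous_dat hδ'
  refine ⟨max K K', fun M hM N hN => ?_⟩
  have hMK : K ≤ M := le_trans (le_max_left _ _) hM
  have hMK' : K' ≤ M := le_trans (le_max_right _ _) hM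
  have hNK : K ≤ N := le_trans (le_max_left _ _) hN
  have hNK' : K' ≤ N := le_trans (le_max_right _ _) hN
  have hN0 : 0 < N := lt_of_lt_of_le hK hNK
  have hM0 : 0 < M := lt_of_lt_of_le hK hMK
  rw [evc_eq]
  have hout : ∀ j₀ < 32 * N, (j₀ < 15 * N ∨ 17 * N ≤ j₀) →
      ev 3 (fun _ => M) (Pr 4 omZ) (fun x : Q => (FF c (rs (ins 0 (gr (32 * N) j₀) x)),
        FF c (rs (ins 0 (gr (32 * N) (j₀ + 1)) x)))) = 0 := by
    intro j₀ hj₀ hj₁
    refine term_zero (Ms := MsN (32 * N) M) (G := fun x => FF c (rs x)) hj₀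
      (fun k pos hadm hk => ?_)
    by_contra h6
    have h7 := h2 (fun j => FF c (rs (gp 4 (MsN (32 * N) M) k pos j))) (fun i _ => norm_FF c _)
      (fun i _ j _ => by
        rw [← dist_eq_norm]
        exact h3 _ _ _ (le_MsN (by omega) hMK) hadm i j) h6 0 (by omega)
    refine absurd h7 (not_lt.2 (h1 _ ?_))
    have h8 := coe_gp hadm 0 (show 0 < 4 by omega)
    rw [if_neg (Nat.not_lt_zero _), add_zero, hk] at h8
    change _ = (j₀ : ℝ) / ((32 * N : ℕ) : ℝ) at h8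
    have hN' : (0 : ℝ) < N := by exact_mod_cast hN0
    rcases hj₁ with hj₁ | hj₁
    · left
      change ((gp 4 (MsN (32 * N) M) k pos 0 0 : unitInterval) : ℝ) ≤ 15 / 32
      rw [h8, div_le_iff₀ (by positivity)]
      push_cast
      have : (j₀ : ℝ) < 15 * N := by exact_mod_cast hj₁
      linarith
    · right
      change 17 / 32 ≤ ((gp 4 (MsN (32 * N) M) k pos 0 0 : unitInterval) : ℝ)
      rw [h8, le_div_iff₀ (by positivity)]
      push_cast
      have : (17 * N : ℝ) ≤ j₀ := by exact_mod_cast hj₁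
      linarith
  have hsplit : 32 * N = 15 * N + (2 * N + 15 * N) := by ring
  have hsum : ∑ k ∈ range (32 * N), ev 3 (fun _ => M) (Pr 4 omZ) (fun x : Q =>
      (FF c (rs (ins 0 (gr (32 * N) k) x)), FF c (rs (ins 0 (gr (32 * N) (k + 1)) x)))) =
      ev 4 (MsN (2 * N) M) omZ (fun x => GG (rs x)) := by
    have e0 : ∀ f : ℕ → ℤ, ∑ k ∈ range (32 * N), f k = ∑ k ∈ range (15 * N), f k +
        (∑ k ∈ range (2 * N), f (15 * N + k) + ∑ k ∈ range (15 * N), f (15 * N + (2 * N + k))) := by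
      intro f
      rw [hsplit, sum_range_add, sum_range_add]
    rw [e0, sum_eq_zero fun k hk => hout k (by have := mem_range.1 hk; omega)
      (Or.inl (mem_range.1 hk)), zero_add,
      sum_eq_zero (s := range (15 * N)) fun k hk => hout (15 * N + (2 * N + k))
        (by have := mem_range.1 hk; omega) (Or.inr (by omega)), add_zero]
    change _ = ∑ j ∈ range (2 * N), ev 3 (fun _ => M) (Pr 4 omZ)
      (fun x => (GG (rs (ins 0 (gr (2 * N) j) x)), GG (rs (ins 0 (gr (2 * N) (j + 1)) x))))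
    refine sum_congr rfl fun i hi => ?_
    have hi' := mem_range.1 hi
    congr 1
    funext x
    rw [FF_window h hN0 (by omega), show 15 * N + i + 1 = 15 * N + (i + 1) by ring,
      FF_window h hN0 (by omega)]
  rw [hsum]
  have hcomp : ev 4 (MsN (2 * N) M) omZ (fun x => GG (rs x)) =
      ev 4 (MsN (2 * N) M) (prod4 (fun x => hX1 (rs x)) (fun x => hC1 (rs x))
        (fun x => hB1 (rs x)) (fun x => hA1 (rs x))) (fun x => x) := by
    rw [Pool.Agent.Helper76.Freq.ev_id]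
    refine Pool.Agent.Helper76.Freq.ev_congr fun k pos hadm => ?_
    exact h4 (fun j => rs (gp 4 (MsN (2 * N) M) k pos j)) fun i _ j _ =>
      h5 _ _ _ (le_MsN (by omega) hMK') hadm i j
  rw [hcomp]
  -- boundary values
  have hv : ∀ x : Q, (rs x 1 : ℝ) ∈ Set.Icc (0 : ℝ) 1 ∧ (rs x 2 : ℝ) ∈ Set.Icc (0 : ℝ) 1 ∧
      tt (rs x) ∈ Set.Icc (15 / 32 : ℝ) (17 / 32) := by
    intro x
    refine ⟨(rs x 1).2, (rs x 2).2, ?_⟩
    have h6 := (rs x 0).2.1
    have h7 := (rs x 0).2.2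
    unfold tt
    constructor <;> linarith
  have hins : ∀ (l : Fin 4) (e : unitInterval) (x : Q), rs (ins l e x) l = e := by
    intro l e x
    unfold rs ins
    simp
  refine ev_prod4 (MsN (2 * N) M) (fun i => le_MsN (K := 1) (by omega) (by omega) i) _ _ _ _
    (fun x => ?_) (fun x => ?_) (fun x => ?_) (fun x => ?_) (fun x => ?_) (fun x => ?_)
    (fun x => ?_) (fun x => ?_)
  · refine (hX1_val _).2 ?_
    unfold sgm
    rw [show rs (ins 3 0 x) 3 = 0 from hins 3 0 x]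
    norm_num
  · refine (hX1_val _).1 ?_
    unfold sgm
    rw [show rs (ins 3 1 x) 3 = 1 from hins 3 1 x]
    norm_num
  · refine (hC1_val _).1 ?_
    have h6 := hv (ins 0 0 x)
    refine (box_signs h6.1 h6.2.1 h6.2.2).2.2.2.2.1 ?_
    unfold tt
    rw [show rs (ins 0 0 x) 0 = 0 from hins 0 0 x]
    norm_num
  · refine (hC1_val _).2 ?_
    have h6 := hv (ins 0 1 x)
    refine (box_signs h6.1 h6.2.1 h6.2.2).2.2.2.2.2 ?_
    unfold tt
    rw [show rs (ins 0 1 x) 0 = 1 from hins 0 1 x]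
    norm_num
  · refine (hB1_val _).2 ?_
    have h6 := hv (ins 2 0 x)
    refine (box_signs h6.1 h6.2.1 h6.2.2).2.2.1 ?_
    rw [show rs (ins 2 0 x) 2 = 0 from hins 2 0 x]
    norm_num
  · refine (hB1_val _).1 ?_
    have h6 := hv (ins 2 1 x)
    refine (box_signs h6.1 h6.2.1 h6.2.2).2.2.2.1 ?_
    rw [show rs (ins 2 1 x) 2 = 1 from hins 2 1 x]
    norm_num
  · refine (hA1_val _).1 ?_
    have h6 := hv (ins 1 0 x)
    refine (box_signs h6.1 h6.2.1 h6.2.2).1 ?_
    rw [show rs (ins 1 0 x) 1 = 0 from hins 1 0 x]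
    norm_num
  · refine (hA1_val _).2 ?_
    have h6 := hv (ins 1 1 x)
    refine (box_signs h6.1 h6.2.1 h6.2.2).2.1 ?_
    rw [show rs (ins 1 1 x) 1 = 1 from hins 1 1 x]
    norm_num

end Pool.Agent.Helper50.Drop
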